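import Pool.Agent.H13.K2S.OcDefs

/-!
# The time inside a context

Given the line the time inside the window of a context is almost uniform, so that the time and the
line are almost independent given the context.
-/

set_option autoImplicit false

namespace Pool.K2S

open Finset Real
open Pool.Agent.H49.Ent Pool.Agent.H32.Dense Pool.STK Pool.KA Pool.KSAT

variable {m J : ℕ}

namespace H1

/-- The label of a context is a function of the line and the window. -/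
theorem qlb_of_slam (F : Fam m J) (w q l : ℕ) (i₀ : Fin m) {z : F.Ω → Fin m → ℝ}
    (hz : ∃ g : (((Fin m → ℝ) × (Fin m → ℝ)) × F.ζ × ℕ) → Fin m → ℝ, ∀ ω, z ω = g (slam F w ω))
    {ω ω' : F.Ω} (h : slam F w ω = slam F w ω') : F.qlb w q l i₀ z ω = F.qlb w q l i₀ z ω' := by
  obtain ⟨g, hg⟩ := hz
  have h1 : F.l ω = F.l ω' := (Prod.ext_iff.mp h).1
  have h2 : F.Z ω = F.Z ω' := (Prod.ext_iff.mp (Prod.ext_iff.mp h).2).1
  have h3 : F.T1 w ω = F.T1 w ω' := (Prod.ext_iff.mp (Prod.ext_iff.mp h).2).2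
  have h4 : z ω = z ω' := by rw [hg, hg, h]
  have h5 : F.u ω = F.u ω' := (Prod.ext_iff.mp h1).1
  have h6 : F.d ω = F.d ω' := (Prod.ext_iff.mp h1).2
  have h7 : F.x1 w ω = F.x1 w ω' := by
    funext i
    unfold Fam.x1
    rw [h5, h6, h3]
  unfold Fam.qlb Fam.glb
  rw [h2, h3, h4, h6, h7]

/-- The digits of the time in the window. -/
theorem floor_tw (F : Fam m J) {w i : ℕ} (h : w + i ≤ J) (ω : F.Ω) :
    (F.T1 (w + i) ω : ℤ) = 2 ^ i * (F.T1 w ω : ℤ) + ⌊(2 : ℝ) ^ i * F.tw w ω⌋ := by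
  have e1 : (2 : ℝ) ^ i * F.tw w ω = 2 ^ (w + i) * F.t ω + ((-(2 ^ i * (F.T1 w ω : ℤ)) : ℤ) : ℝ) := by
    unfold Fam.tw
    rw [pow_add]
    push_cast
    ring
  have e2 : (2 : ℝ) ^ (w + i) * F.t ω = (F.T ω : ℝ) / ((2 ^ (J - (w + i)) : ℕ) : ℝ) := by
    unfold Fam.t
    have e3 : (2 : ℝ) ^ J = 2 ^ (w + i) * 2 ^ (J - (w + i)) := by
      rw [← pow_add]
      congr 1
      omega
    rw [e3]
    push_cast
    field_simp
  rw [e1, Int.floor_add_intCast, e2, Int.floor_div_natCast, Int.floor_natCast]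
  have e4 : (F.T1 (w + i) ω : ℤ) = (F.T ω : ℤ) / ((2 ^ (J - (w + i)) : ℕ) : ℤ) := by
    unfold Fam.T1
    exact Int.natCast_div _ _
  rw [e4]
  ring

/-- **(H1)**, first half: the line and the time are almost independent given the context. -/
theorem h1_mi (F : Fam m J) {p : F.Ω → ℝ} (hp : IsLaw p) (w q l : ℕ) (i₀ : Fin m)
    {z : F.Ω → Fin m → ℝ}
    (hz : ∃ g : (((Fin m → ℝ) × (Fin m → ℝ)) × F.ζ × ℕ) → Fin m → ℝ, ∀ ω, z ω = g (slam F w ω))
    (hw : w ≤ J) {e : ℝ} (hT : (J : ℝ) * Real.log 2 - e ≤ CH p F.T (fun ω => (F.l ω, F.Z ω))) :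
    CH p F.T (F.qlb w q l i₀ z) - CH p F.T (fun ω => (F.l ω, F.qlb w q l i₀ z ω)) ≤ e := by
  have h1 := time_digits (F.ext p hp id) (w := w) (K := J - w) (by omega) (e := e) hT
  have h2 : CH p (fun ω => (F.T1 (w + (J - w)) ω : ℤ)) (slam F w) ≤
      CH p F.T (fun ω => (F.l ω, F.qlb w q l i₀ z ω)) := by
    refine (CH_mono_left hp.nonneg (X' := F.T) (fun ω ω' _ _ h => ?_)).trans
      (CH_mono_cond hp.nonneg fun ω ω' _ _ h => ?_)
    · show ((F.T1 (w + (J - w)) ω : ℕ) : ℤ) = F.T1 (w + (J - w)) ω'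
      unfold Fam.T1
      have h3 : F.T ω = F.T ω' := (Prod.ext_iff.mp h).1
      rw [h3]
    · exact Prod.ext (Prod.ext_iff.mp h).1 (qlb_of_slam F w q l i₀ hz h)
  have h3 : CH p F.T (F.qlb w q l i₀ z) ≤ ((J - w : ℕ) : ℝ) * Real.log 2 := by
    refine (CH_le_card hp.nonneg hp.sum_one F.T _
      (fun v => Finset.Ico (v.1.1.1 * 2 ^ (J - w)) ((v.1.1.1 + 1) * 2 ^ (J - w))) ?_).trans ?_
    · intro ω _
      rw [Finset.mem_Ico]
      show F.T1 w ω * 2 ^ (J - w) ≤ F.T ω ∧ F.T ω < (F.T1 w ω + 1) * 2 ^ (J - w)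
      unfold Fam.T1
      constructor
      · exact Nat.div_mul_le_self _ _
      · rw [← Nat.div_lt_iff_lt_mul (by positivity)]
        exact Nat.lt_succ_self _
    · refine le_of_eq ?_
      have : ∀ v : ℕ, (Finset.Ico (v * 2 ^ (J - w)) ((v + 1) * 2 ^ (J - w))).card =
          2 ^ (J - w) := by
        intro v
        rw [Nat.card_Ico, add_mul, one_mul, Nat.add_sub_cancel_left]
      simp only [this]
      push_cast
      rw [Ex_const hp.sum_one, Real.log_pow]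
  have h4 : ((J - w : ℕ) : ℝ) * Real.log 2 - e ≤
      CH p (fun ω => (F.T1 (w + (J - w)) ω : ℤ)) (slam F w) := h1
  linarith

/-- **(H1)**, second half: the digits of the time in the window. -/
theorem h1_dig (F : Fam m J) {p : F.Ω → ℝ} (hp : IsLaw p) (w q l : ℕ) (i₀ : Fin m)
    {z : F.Ω → Fin m → ℝ}
    (hz : ∃ g : (((Fin m → ℝ) × (Fin m → ℝ)) × F.ζ × ℕ) → Fin m → ℝ, ∀ ω, z ω = g (slam F w ω))
    {e : ℝ} (hT : (J : ℝ) * Real.log 2 - e ≤ CH p F.T (fun ω => (F.l ω, F.Z ω)))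
    {i : ℕ} (hi : w + i ≤ J) :
    i * Real.log 2 - e ≤ CH p (fun ω => ⌊(2 : ℝ) ^ i * F.tw w ω⌋)
      (fun ω => (F.l ω, F.qlb w q l i₀ z ω)) := by
  have h1 := time_digits (F.ext p hp id) (w := w) (K := i) hi (e := e) hT
  have h4 : (i : ℝ) * Real.log 2 - e ≤
      CH p (fun ω => (F.T1 (w + i) ω : ℤ)) (slam F w) := h1
  refine h4.trans ?_
  have h5 : CH p (fun ω => (F.T1 (w + i) ω : ℤ)) (slam F w) =
      CH p (fun ω => ⌊(2 : ℝ) ^ i * F.tw w ω⌋) (slam F w) := by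
    have h6 : ∀ ω ω', slam F w ω = slam F w ω' → F.T1 w ω = F.T1 w ω' := fun ω ω' h =>
      (Prod.ext_iff.mp (Prod.ext_iff.mp h).2).2
    have h7 := CH_chain hp.nonneg (fun ω => (F.T1 (w + i) ω : ℤ))
      (fun ω => ⌊(2 : ℝ) ^ i * F.tw w ω⌋) (slam F w)
    have h8 := CH_chain hp.nonneg (fun ω => ⌊(2 : ℝ) ^ i * F.tw w ω⌋)
      (fun ω => (F.T1 (w + i) ω : ℤ)) (slam F w)
    have h9 : CH p (fun ω => (F.T1 (w + i) ω : ℤ))
        (fun ω => (⌊(2 : ℝ) ^ i * F.tw w ω⌋, slam F w ω)) = 0 := by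
      refine CH_eq_zero hp.nonneg fun ω ω' _ _ h => ?_
      have a1 := (Prod.ext_iff.mp h).1
      have a2 := h6 ω ω' (Prod.ext_iff.mp h).2
      simp only at a1
      show (F.T1 (w + i) ω : ℤ) = F.T1 (w + i) ω'
      rw [floor_tw F hi ω, floor_tw F hi ω', a1, a2]
    have h10 : CH p (fun ω => ⌊(2 : ℝ) ^ i * F.tw w ω⌋)
        (fun ω => ((F.T1 (w + i) ω : ℤ), slam F w ω)) = 0 := by
      refine CH_eq_zero hp.nonneg fun ω ω' _ _ h => ?_
      have a1 := (Prod.ext_iff.mp h).1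
      have a2 := h6 ω ω' (Prod.ext_iff.mp h).2
      simp only at a1
      rw [floor_tw F hi ω, floor_tw F hi ω', a2] at a1
      exact add_left_cancel a1
    have h11 : CH p (fun ω => ((F.T1 (w + i) ω : ℤ), ⌊(2 : ℝ) ^ i * F.tw w ω⌋)) (slam F w) =
        CH p (fun ω => (⌊(2 : ℝ) ^ i * F.tw w ω⌋, (F.T1 (w + i) ω : ℤ))) (slam F w) := by
      refine CH_congr hp.nonneg ?_ ?_ (fun _ _ _ _ h => h) (fun _ _ _ _ h => h)
      · intro ω ω' _ _ h
        have h' := Prod.ext_iff.mp (Prod.ext_iff.mp h).1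
        exact Prod.ext h'.2 h'.1
      · intro ω ω' _ _ h
        have h' := Prod.ext_iff.mp (Prod.ext_iff.mp h).1
        exact Prod.ext h'.2 h'.1
    linarith
  rw [h5]
  refine CH_mono_cond hp.nonneg fun ω ω' _ _ h => ?_
  exact Prod.ext (Prod.ext_iff.mp h).1 (qlb_of_slam F w q l i₀ hz h)

end H1

end Pool.K2S
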