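import Pool.Agent.H59.OC.Uni
import Pool.Agent.H54.KVA.Defs2
import Pool.Agent.H56.KAF.Defs
import Pool.Agent.H43.K2.JBG

/-!
# From the mean over a context to its typical values
-/

set_option autoImplicit false

namespace Pool.K2S

open Finset Real
open Pool.Agent.H49.Ent Pool.Agent.H32.Dense Pool.STK Pool.KA

variable {Ω S T U β Λ : Type} [Fintype Ω]

namespace Uni

/-- Two copies given a pair of labels, at one value of the second. -/
theorem law_mul_dbl {p : Ω → ℝ} (hp : ∀ ω, 0 ≤ p ω) (l : Ω → Λ) (b : Ω → β) {z : β}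
    (hz : law p b z ≠ 0) (w : Ω × Ω) :
    law p b z * dbl (Pool.Agent.H49.Ent.cond p b z) l w =
      (open Classical in if b w.1 = z then dbl p (fun ω => (l ω, b ω)) w else 0) := by
  classical
  obtain ⟨u, v⟩ := w
  have e1 : ∀ x, law (Pool.Agent.H49.Ent.cond p b z) l x =
      law p (fun ω => (l ω, b ω)) (x, z) / law p b z := fun x => law_cond p l b z x
  unfold dbl glue
  simp only
  by_cases h1 : b u = z
  · by_cases h2 : b v = z
    · by_cases h3 : l u = l v
      · have c1 : Pool.Agent.H49.Ent.cond p b z u = p u / law p b z := by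
          unfold Pool.Agent.H49.Ent.cond; rw [if_pos h1]
        have c2 : Pool.Agent.H49.Ent.cond p b z v = p v / law p b z := by
          unfold Pool.Agent.H49.Ent.cond; rw [if_pos h2]
        rw [if_pos h3, if_pos h1, if_pos (Prod.ext h3 (h1.trans h2.symm)), e1, c1, c2, h1]
        by_cases h4 : law p (fun ω => (l ω, b ω)) (l u, z) = 0
        · rw [h4]
          simp
        · field_simp
      · rw [if_neg h3, if_pos h1, if_neg (fun h => h3 (Prod.ext_iff.mp h).1), mul_zero]
    · have c2 : Pool.Agent.H49.Ent.cond p b z v = 0 := by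
        unfold Pool.Agent.H49.Ent.cond; rw [if_neg h2]
      rw [if_pos h1, if_neg (fun h => h2 ((Prod.ext_iff.mp h).2.symm.trans h1)), c2]
      simp
  · have c1 : Pool.Agent.H49.Ent.cond p b z u = 0 := by
      unfold Pool.Agent.H49.Ent.cond; rw [if_neg h1]
    rw [if_neg h1, c1]
    simp

/-- The probability of an event of two copies as an average over the values of a label. -/
theorem Ex_Pr_dbl {p : Ω → ℝ} (hp : ∀ ω, 0 ≤ p ω) (l : Ω → Λ) (b : Ω → β)
    (B : β → Set (Ω × Ω)) :
    Ex p (fun ω => Pool.KAF.Pr (dbl (Pool.Agent.H49.Ent.cond p b (b ω)) l) (B (b ω))) =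
      Pool.KAF.Pr (dbl p (fun ω => (l ω, b ω))) {w | w ∈ B (b w.1)} := by
  classical
  have e0 : ∀ (q : Ω × Ω → ℝ) (E : Set (Ω × Ω)), Pool.KAF.Pr q E =
      ∑ w, if w ∈ E then q w else 0 := by
    intro q E
    exact Pe_eq q (fun w => w ∈ E)
  have e1 : Ex p (fun ω => Pool.KAF.Pr (dbl (Pool.Agent.H49.Ent.cond p b (b ω)) l) (B (b ω))) =
      ∑ z ∈ univ.image b, law p b z *
        Pool.KAF.Pr (dbl (Pool.Agent.H49.Ent.cond p b z) l) (B z) :=
    sum_mul_eq_sum_image p b
      (fun z => Pool.KAF.Pr (dbl (Pool.Agent.H49.Ent.cond p b z) l) (B z))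
  rw [e1, e0]
  have e2 : ∀ z ∈ univ.image b, law p b z *
      Pool.KAF.Pr (dbl (Pool.Agent.H49.Ent.cond p b z) l) (B z) =
      ∑ w : Ω × Ω, if b w.1 = z then
        (if w ∈ B (b w.1) then dbl p (fun ω => (l ω, b ω)) w else 0) else 0 := by
    intro z _
    by_cases hz : law p b z = 0
    · rw [hz, zero_mul]
      refine (Finset.sum_eq_zero fun w _ => ?_).symm
      by_cases h1 : b w.1 = z
      · have h2 : p w.1 = 0 := by
          by_contra h2
          have h3 : 0 < p w.1 := lt_of_le_of_ne (hp _) (Ne.symm h2)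
          have h4 := law_pos hp b h3
          rw [h1, hz] at h4
          exact lt_irrefl _ h4
        have h3 : dbl p (fun ω => (l ω, b ω)) w = 0 := by
          unfold dbl glue
          rw [h2]
          simp
        rw [h3]
        simp
      · rw [if_neg h1]
    · rw [e0, Finset.mul_sum]
      refine Finset.sum_congr rfl fun w _ => ?_
      by_cases h1 : w ∈ B z
      · rw [if_pos h1, law_mul_dbl hp l b hz w]
        by_cases h2 : b w.1 = z
        · rw [if_pos h2, if_pos h2, if_pos (by rw [h2]; exact h1)]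
        · rw [if_neg h2, if_neg h2]
      · rw [if_neg h1, mul_zero]
        by_cases h2 : b w.1 = z
        · rw [if_pos h2, if_neg (by rw [h2]; exact h1)]
        · rw [if_neg h2]
  rw [Finset.sum_congr rfl e2, Finset.sum_comm]
  refine Finset.sum_congr rfl fun w _ => ?_
  rw [Finset.sum_eq_single (b w.1)]
  · rw [if_pos rfl]
    rfl
  · intro z _ hz
    rw [if_neg (fun h : b w.1 = z => hz h.symm)]
  · intro h
    exact absurd (Finset.mem_image_of_mem b (Finset.mem_univ w.1)) h

/-- Markov's inequality. -/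
theorem Pe_markov {p : Ω → ℝ} (hp : IsLaw p) (f : Ω → ℝ) (hf : ∀ ω, 0 < p ω → 0 ≤ f ω) {θ : ℝ}
    (hθ : 0 < θ) : Pe p (fun ω => θ < f ω) ≤ Ex p f / θ := by
  classical
  rw [le_div_iff₀ hθ, Pe_eq, Finset.sum_mul]
  unfold Ex
  refine Finset.sum_le_sum fun ω _ => ?_
  rcases (hp.nonneg ω).lt_or_eq with h | h
  · by_cases h1 : θ < f ω
    · rw [if_pos h1]
      exact mul_le_mul_of_nonneg_left h1.le (hp.nonneg ω)
    · rw [if_neg h1, zero_mul]
      exact mul_nonneg h.le (hf ω h)
  · rw [← h]
    simp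

/-- A bounded function with a large mean is large with positive probability. -/
theorem Pe_reverse {p : Ω → ℝ} (hp : IsLaw p) (g : Ω → ℝ) {M θ c : ℝ} (hM : 0 < M)
    (hg : ∀ ω, 0 < p ω → g ω ≤ M) (hc : c ≤ Ex p g) (hθ : 0 ≤ θ) :
    (c - θ) / M ≤ Pe p (fun ω => θ ≤ g ω) := by
  classical
  rw [div_le_iff₀ hM, Pe_eq, Finset.sum_mul]
  have h1 : Ex p g ≤ θ + ∑ ω, (if θ ≤ g ω then p ω else 0) * M := by
    have h2 : θ + ∑ ω, (if θ ≤ g ω then p ω else 0) * M =
        ∑ ω, (p ω * θ + (if θ ≤ g ω then p ω else 0) * M) := by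
      rw [Finset.sum_add_distrib, ← Finset.sum_mul (f := p), hp.sum_one, one_mul]
    rw [h2]
    unfold Ex
    refine Finset.sum_le_sum fun ω _ => ?_
    rcases (hp.nonneg ω).lt_or_eq with h | h
    · by_cases h3 : θ ≤ g ω
      · rw [if_pos h3]
        have := mul_le_mul_of_nonneg_left (hg ω h) h.le
        have := mul_nonneg h.le hθ
        linarith
      · rw [if_neg h3, zero_mul, add_zero]
        exact mul_le_mul_of_nonneg_left (not_le.mp h3).le h.le
    · rw [← h]
      simp
  linarith

end Uni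

end Pool.K2S
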