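import Pool.Agent.H59.OC.OCB
import Pool.Agent.H59.OC.H1
import Pool.Agent.H13.K2S.OcFam

/-!
# The data of theorem OC in a context of a family
-/

set_option autoImplicit false

namespace Pool.K2S

open Finset Real
open Pool.Agent.H49.Ent Pool.Agent.H32.Dense Pool.STK Pool.KA Pool.KSAT

variable {m J : ℕ}

namespace H1

/-- The time in the window is in `[0, 1)`. -/
theorem tw_mem (F : Fam m J) {w : ℕ} (hw : w ≤ J) (ω : F.Ω) : 0 ≤ F.tw w ω ∧ F.tw w ω < 1 := by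
  have h := floor_tw F (w := w) (i := 0) (by omega) ω
  simp only [Nat.add_zero, pow_zero, one_mul] at h
  have h0 : ⌊F.tw w ω⌋ = 0 := by linarith
  have h1 := Int.floor_eq_zero_iff.1 h0
  exact ⟨h1.1, h1.2⟩

theorem ne_one_sub (i₀ : Fin 2) : (1 - i₀ : Fin 2) ≠ i₀ := by
  fin_cases i₀ <;> simp

theorem gu_of (F : Fam m J) (w q l : ℕ) (i₀ : Fin m) (z : F.Ω → Fin m → ℝ) {ω ω' : F.Ω}
    (h : F.qlb w q l i₀ z ω = F.qlb w q l i₀ z ω') (h' : F.l ω = F.l ω') (i : Fin m) :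
    F.gu w (q + w) l i₀ z ω i = F.gu w (q + w) l i₀ z ω' i := by
  have e1 := (Prod.ext_iff.mp (Prod.ext_iff.mp h).1).1
  have e2 : F.T1 w ω = F.T1 w ω' := (Prod.ext_iff.mp e1).1
  have e3 : z ω = z ω' := (Prod.ext_iff.mp e1).2
  have e4 : F.u ω = F.u ω' := (Prod.ext_iff.mp h').1
  have e5 : F.d ω = F.d ω' := (Prod.ext_iff.mp h').2
  have e6 : F.x1 w ω = F.x1 w ω' := by
    funext i
    unfold Fam.x1
    rw [e4, e5, e2]
  unfold Fam.gu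
  rw [e3, e6]

theorem gd_of (F : Fam m J) (w q l : ℕ) (i₀ : Fin m) (z : F.Ω → Fin m → ℝ) {ω ω' : F.Ω}
    (h : F.qlb w q l i₀ z ω = F.qlb w q l i₀ z ω') (h' : F.l ω = F.l ω') (i : Fin m) :
    F.gd q l i₀ z ω i = F.gd q l i₀ z ω' i := by
  have e1 := (Prod.ext_iff.mp (Prod.ext_iff.mp h).1).1
  have e3 : z ω = z ω' := (Prod.ext_iff.mp e1).2
  have e5 : F.d ω = F.d ω' := (Prod.ext_iff.mp h').2
  unfold Fam.gd
  rw [e3, e5]

theorem tw_of (F : Fam m J) (w q l : ℕ) (i₀ : Fin m) (z : F.Ω → Fin m → ℝ) {ω ω' : F.Ω}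
    (h' : F.T ω = F.T ω') : F.tw w ω = F.tw w ω' := by
  unfold Fam.tw Fam.t Fam.T1
  rw [h']

end H1

/-- **The dictionary.** -/
theorem ocdata_fam (F : Fam 2 J) (i₀ : Fin 2) (A : F.Ω → Prop)
    (f : (Fin 2 → ℤ) × (ℕ × F.ζ) → Fin 2 → ℝ) (w q l L : ℕ) (z : F.Ω → Fin 2 → ℝ)
    (φ : F.Ω → ℝ) (hQ : IsLaw (Pool.Agent.H49.Ent.cond F.p A True)) (hw : w ≤ J)
    (hW : Win F i₀ A f w l z) (hS : Slp F i₀ A f w q l L z φ) (hL : l ≤ L) :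
    OCData (Pool.Agent.H49.Ent.cond F.p A True) (F.qlb w q l i₀ z) F.l F.T
      (fun ω => F.gu w (q + w) l i₀ z ω i₀) (fun ω => F.gd q l i₀ z ω i₀)
      (fun ω => F.gd q l i₀ z ω (1 - i₀)) (fun ω => F.gu w (q + w) l i₀ z ω (1 - i₀))
      (F.tw w) (fun ω => 2 ^ l * (φ ω - z ω (1 - i₀))) (nuv F i₀ w q l z φ) := by
  have hA : ∀ ω, 0 < Pool.Agent.H49.Ent.cond F.p A True ω → A ω := fun ω hω =>
    of_eq_true ((cond_pos_iff F.isLaw.nonneg A True ω).1 hω).2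
  refine ⟨hQ, ?_, ?_, ?_, ?_, ?_, ?_, ?_, ?_, ?_, ?_, ?_, ?_⟩
  · intro ω ω' _ _ e
    exact H1.gu_of F w q l i₀ z (Prod.ext_iff.mp e).1 (Prod.ext_iff.mp e).2 i₀
  · intro ω ω' _ _ e
    exact H1.gd_of F w q l i₀ z (Prod.ext_iff.mp e).1 (Prod.ext_iff.mp e).2 i₀
  · intro ω ω' _ _ e
    exact H1.gd_of F w q l i₀ z (Prod.ext_iff.mp e).1 (Prod.ext_iff.mp e).2 (1 - i₀)
  · intro ω ω' _ _ e
    exact H1.gu_of F w q l i₀ z (Prod.ext_iff.mp e).1 (Prod.ext_iff.mp e).2 (1 - i₀)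
  · intro ω ω' _ _ e
    exact H1.tw_of F w q l i₀ z (Prod.ext_iff.mp e).2
  · intro ω ω' _ _ e
    obtain ⟨g, hg⟩ := hS.1
    have e1 : F.qlb w q l i₀ z ω = F.qlb w q l i₀ z ω' := (Prod.ext_iff.mp e).1
    have e2 : F.T ω = F.T ω' := (Prod.ext_iff.mp e).2
    have e3 : z ω = z ω' :=
      (Prod.ext_iff.mp (Prod.ext_iff.mp (Prod.ext_iff.mp e1).1).1).2
    show 2 ^ l * (φ ω - z ω (1 - i₀)) = 2 ^ l * (φ ω' - z ω' (1 - i₀))
    rw [hg ω, hg ω', e1, e2, e3]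
  · intro ω _
    exact ⟨Int.fract_nonneg _, Int.fract_lt_one _⟩
  · intro ω _
    exact ⟨Int.fract_nonneg _, Int.fract_lt_one _⟩
  · intro ω _
    exact ⟨Int.fract_nonneg _, Int.fract_lt_one _⟩
  · intro ω _
    exact H1.tw_mem F hw ω
  · intro ω hω
    have h1 := hW.cl ω (hA ω hω) (1 - i₀) (H1.ne_one_sub i₀)
    have h2 := hS.2 ω (hA ω hω)
    have h3 : (0 : ℝ) < 2 ^ l := by positivity
    have h4 : (2 : ℝ) / 2 ^ L ≤ 2 / 2 ^ l :=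
      div_le_div_of_nonneg_left (by norm_num) h3 (pow_le_pow_right₀ (by norm_num) hL)
    have h5 : |φ ω - z ω (1 - i₀)| ≤ 4 / 2 ^ l := by
      have e1 : φ ω - z ω (1 - i₀) = (f (Fam.pt F ω) (1 - i₀) - z ω (1 - i₀)) -
        (f (Fam.pt F ω) (1 - i₀) - φ ω) := by ring
      rw [e1]
      refine (abs_sub _ _).trans ?_
      have e2 : (4 : ℝ) / 2 ^ l = 2 / 2 ^ l + 2 / 2 ^ l := by ring
      rw [e2]
      linarith
    show |2 ^ l * (φ ω - z ω (1 - i₀))| ≤ 4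
    rw [abs_mul, abs_of_pos h3]
    calc (2 : ℝ) ^ l * |φ ω - z ω (1 - i₀)| ≤ 2 ^ l * (4 / 2 ^ l) :=
          mul_le_mul_of_nonneg_left h5 h3.le
      _ = 4 := by field_simp
  · intro ω _
    rfl

/-- Two copies: the label `(l, b)` and the label of the windows are the same. -/
theorem H1.slam_of (F : Fam m J) (w q l : ℕ) (i₀ : Fin m) (z : F.Ω → Fin m → ℝ) {ω ω' : F.Ω}
    (h : F.qlb w q l i₀ z ω = F.qlb w q l i₀ z ω') (h' : F.l ω = F.l ω') :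
    slam F w ω = slam F w ω' := by
  have e1 := (Prod.ext_iff.mp (Prod.ext_iff.mp h).1).1
  have e2 : F.T1 w ω = F.T1 w ω' := (Prod.ext_iff.mp e1).1
  have e3 : F.Z ω = F.Z ω' := (Prod.ext_iff.mp h).2
  exact Prod.ext h' (Prod.ext e3 e2)

/-- **(H6) in a context.** -/
theorem h6_fam (F : Fam 2 J) (i₀ : Fin 2) (A : F.Ω → Prop)
    (f : (Fin 2 → ℤ) × (ℕ × F.ζ) → Fin 2 → ℝ) (w q l L : ℕ) (z : F.Ω → Fin 2 → ℝ)
    (φ : F.Ω → ℝ) (hQ : IsLaw (Pool.Agent.H49.Ent.cond F.p A True))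
    (hW : Win F i₀ A f w l z) (hS : Slp F i₀ A f w q l L z φ) {y ρ : ℝ}
    (hρ : y / 2 ^ l + 4 / 2 ^ L ≤ ρ) :
    Pool.KAF.Pr (dbl (Pool.Agent.H49.Ent.cond F.p A True)
        (fun ω => (F.l ω, F.qlb w q l i₀ z ω)))
      {x | |2 ^ l * (φ x.1 - z x.1 (1 - i₀)) - 2 ^ l * (φ x.2 - z x.2 (1 - i₀))| < y} ≤
    Pe (cpy (Pool.Agent.H49.Ent.cond F.p A True) (slam F w))
      (fun x => |f (Fam.pt F x.1) (1 - i₀) - f (Fam.pt F x.2) (1 - i₀)| ≤ ρ) := by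
  classical
  have hA : ∀ ω, 0 < Pool.Agent.H49.Ent.cond F.p A True ω → A ω := fun ω hω =>
    of_eq_true ((cond_pos_iff F.isLaw.nonneg A True ω).1 hω).2
  obtain ⟨Q, hQe⟩ : ∃ Q, Q = Pool.Agent.H49.Ent.cond F.p A True := ⟨_, rfl⟩
  rw [← hQe] at hQ hA ⊢
  have h0 := hQ.nonneg
  have hl : ∀ ω, law Q (fun ω => (F.l ω, F.qlb w q l i₀ z ω)) (F.l ω, F.qlb w q l i₀ z ω) =
      law Q (slam F w) (slam F w ω) := by
    intro ω
    unfold law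
    refine Finset.sum_congr rfl fun v _ => ?_
    by_cases h : slam F w v = slam F w ω
    · have h1 : (F.l v, F.qlb w q l i₀ z v) = (F.l ω, F.qlb w q l i₀ z ω) :=
        Prod.ext (Prod.ext_iff.mp h).1 (H1.qlb_of_slam F w q l i₀ hW.fn h)
      rw [if_pos h, if_pos h1]
    · rw [if_neg h, if_neg]
      intro h1
      exact h (H1.slam_of F w q l i₀ z (Prod.ext_iff.mp h1).2 (Prod.ext_iff.mp h1).1)
  have hd : ∀ x : F.Ω × F.Ω, dbl Q (fun ω => (F.l ω, F.qlb w q l i₀ z ω)) x =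
      cpy Q (slam F w) x := by
    intro x
    unfold dbl glue cpy
    rw [hl x.1]
    by_cases h : slam F w x.1 = slam F w x.2
    · have h1 : (F.l x.1, F.qlb w q l i₀ z x.1) = (F.l x.2, F.qlb w q l i₀ z x.2) :=
        Prod.ext (Prod.ext_iff.mp h).1 (H1.qlb_of_slam F w q l i₀ hW.fn h)
      rw [if_pos h, if_pos h1]
    · rw [if_neg h, if_neg]
      intro h1
      exact h (H1.slam_of F w q l i₀ z (Prod.ext_iff.mp h1).2 (Prod.ext_iff.mp h1).1)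
  have hdd : dbl Q (fun ω => (F.l ω, F.qlb w q l i₀ z ω)) = cpy Q (slam F w) := funext hd
  have hnn : ∀ x, 0 ≤ cpy Q (slam F w) x := fun x => by
    rw [← hd]; exact glue_nonneg h0 h0 x
  rw [hdd]
  refine Uni.Pe_le_of hnn (A := fun x => x ∈ {x : F.Ω × F.Ω |
    |2 ^ l * (φ x.1 - z x.1 (1 - i₀)) - 2 ^ l * (φ x.2 - z x.2 (1 - i₀))| < y}) fun x hx hE => ?_
  have hx' : 0 < dbl Q (fun ω => (F.l ω, F.qlb w q l i₀ z ω)) x := by rw [hd]; exact hx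
  obtain ⟨a, b, e⟩ := (glue_pos_iff h0 h0 x).1 hx'
  have e1 : F.qlb w q l i₀ z x.1 = F.qlb w q l i₀ z x.2 := (Prod.ext_iff.mp e).2
  have e3 : z x.1 = z x.2 :=
    (Prod.ext_iff.mp (Prod.ext_iff.mp (Prod.ext_iff.mp e1).1).1).2
  have hE' : |2 ^ l * (φ x.1 - z x.1 (1 - i₀)) - 2 ^ l * (φ x.2 - z x.2 (1 - i₀))| < y := hE
  rw [e3] at hE'
  have h3 : (0 : ℝ) < 2 ^ l := by positivity
  have e4 : 2 ^ l * (φ x.1 - z x.2 (1 - i₀)) - 2 ^ l * (φ x.2 - z x.2 (1 - i₀)) =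
    2 ^ l * (φ x.1 - φ x.2) := by ring
  rw [e4, abs_mul, abs_of_pos h3] at hE'
  have h4 : |φ x.1 - φ x.2| ≤ y / 2 ^ l := by
    rw [le_div_iff₀ h3]
    linarith
  have h5 := hS.2 x.1 (hA _ a)
  have h6 := hS.2 x.2 (hA _ b)
  have e5 : f (Fam.pt F x.1) (1 - i₀) - f (Fam.pt F x.2) (1 - i₀) =
      (f (Fam.pt F x.1) (1 - i₀) - φ x.1) + (φ x.1 - φ x.2) -
        (f (Fam.pt F x.2) (1 - i₀) - φ x.2) := by ring
  show |f (Fam.pt F x.1) (1 - i₀) - f (Fam.pt F x.2) (1 - i₀)| ≤ ρ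
  rw [e5]
  refine (abs_sub _ _).trans ?_
  have h7 := abs_add_le (f (Fam.pt F x.1) (1 - i₀) - φ x.1) (φ x.1 - φ x.2)
  have e6 : (4 : ℝ) / 2 ^ L = 2 / 2 ^ L + 2 / 2 ^ L := by ring
  rw [e6] at hρ
  linarith

end Pool.K2S
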