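import Pool.Agent.H59.OC.Avg
import Pool.Agent.H97.OC.Defs

/-!
# Theorem OC for real variables, one value of the context
-/

set_option autoImplicit false

namespace Pool.K2S

open Finset Real
open Pool.Agent.H49.Ent Pool.Agent.H32.Dense Pool.STK Pool.KA

variable {Ω Λ Θ S T U V : Type} [Fintype Ω]

namespace Uni

/-- A variable which is determined by a label is a function of the label. -/
theorem exists_fun {q : Ω → ℝ} {L : Ω → Λ} {y : Ω → ℝ} (h : Det q L y) :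
    ∃ f : Λ → ℝ, ∀ ω, 0 < q ω → y ω = f (L ω) := by
  classical
  refine ⟨fun a => if h : ∃ ω, 0 < q ω ∧ L ω = a then y h.choose else 0, fun ω hω => ?_⟩
  have hex : ∃ ω', 0 < q ω' ∧ L ω' = L ω := ⟨ω, hω, rfl⟩
  dsimp only
  rw [dif_pos hex]
  exact h ω _ hω hex.choose_spec.1 hex.choose_spec.2.symm

/-- Replacing a variable by one with the same values. -/
theorem CH_eq_of {q : Ω → ℝ} (hq : ∀ ω, 0 ≤ q ω) {X X' : Ω → S} {W W' : Ω → T}
    (h : ∀ ω, 0 < q ω → X ω = X' ω) (h' : ∀ ω, 0 < q ω → W ω = W' ω) :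
    CH q X W = CH q X' W' := by
  refine CH_congr hq ?_ ?_ ?_ ?_
  · intro ω ω' a b e
    rw [← h ω a, ← h ω' b]
    exact (Prod.ext_iff.mp e).1
  · intro ω ω' a b e
    rw [h ω a, h ω' b]
    exact (Prod.ext_iff.mp e).1
  · intro ω ω' a b e
    rw [← h' ω a, ← h' ω' b]
    exact e
  · intro ω ω' a b e
    rw [h' ω a, h' ω' b]
    exact e

theorem Pr_le_of {q : Ω → ℝ} (hq : ∀ ω, 0 ≤ q ω) {E E' : Set Ω}
    (h : ∀ ω, 0 < q ω → ω ∈ E → ω ∈ E') : Pool.KAF.Pr q E ≤ Pool.KAF.Pr q E' := by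
  classical
  have e0 : ∀ E : Set Ω, Pool.KAF.Pr q E = ∑ w, if w ∈ E then q w else 0 :=
    fun E => Pe_eq q (fun w => w ∈ E)
  rw [e0, e0]
  refine Finset.sum_le_sum fun ω _ => ?_
  by_cases h1 : ω ∈ E
  · rw [if_pos h1]
    rcases (hq ω).lt_or_eq with h2 | h2
    · rw [if_pos (h ω h2 h1)]
    · rw [← h2]
      simp
  · rw [if_neg h1]
    split_ifs
    · exact hq ω
    · exact le_rfl

/-- Digits of digits. -/
theorem floor_row {X r : ℕ} (h : r ≤ X) (x : ℝ) :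
    ⌊(2 : ℝ) ^ X * x⌋ / 2 ^ (X - r) = ⌊(2 : ℝ) ^ r * x⌋ := by
  have e1 : (2 : ℝ) ^ r * x = (2 : ℝ) ^ X * x / ((2 ^ (X - r) : ℕ) : ℝ) := by
    have e3 : (2 : ℝ) ^ X = 2 ^ r * 2 ^ (X - r) := by
      rw [← pow_add]
      congr 1
      omega
    rw [e3]
    push_cast
    field_simp
  rw [e1, Int.floor_div_natCast]
  norm_num

theorem floor_four (x : ℝ) : 4 * ⌊x⌋ ≤ ⌊4 * x⌋ ∧ ⌊4 * x⌋ < 4 * ⌊x⌋ + 4 := by
  have h2 := Int.floor_le x
  have h3 := Int.lt_floor_add_one x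
  refine ⟨Int.le_floor.2 ?_, Int.floor_lt.2 ?_⟩
  · push_cast
    linarith
  · push_cast
    linarith

theorem floor_four_div (x : ℝ) : ⌊4 * x⌋ / 4 = ⌊x⌋ := by
  have h := floor_four x
  omega

end Uni

/-- The data of theorem OC with real variables. `b` is the context. -/
structure OCData {β : Type} (p : Ω → ℝ) (b : Ω → β) (L : Ω → Λ) (T : Ω → Θ)
    (y om be m0 th S nu : Ω → ℝ) : Prop where
  law : IsLaw p
  dy : Det p (fun ω => (b ω, L ω)) y
  dom : Det p (fun ω => (b ω, L ω)) om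
  dbe : Det p (fun ω => (b ω, L ω)) be
  dm0 : Det p (fun ω => (b ω, L ω)) m0
  dth : Det p (fun ω => (b ω, T ω)) th
  dS : Det p (fun ω => (b ω, T ω)) S
  hy : ∀ ω, 0 < p ω → 0 ≤ y ω ∧ y ω < 1
  hom : ∀ ω, 0 < p ω → 0 ≤ om ω ∧ om ω < 1
  hbe : ∀ ω, 0 < p ω → 0 ≤ be ω ∧ be ω < 1
  hth : ∀ ω, 0 < p ω → 0 ≤ th ω ∧ th ω < 1
  hS : ∀ ω, 0 < p ω → |S ω| ≤ 4
  hnu : ∀ ω, 0 < p ω → nu ω = m0 ω + th ω * be ω - S ω * (y ω + th ω * om ω)

namespace Uni

open Pool.OC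

/-- The digits of a real variable. -/
noncomputable def dg (X : ℕ) (y : Ω → ℝ) (ω : Ω) : ℤ := ⌊(2 : ℝ) ^ X * y ω⌋

theorem abs_mul_le {a b A B : ℝ} (ha : |a| ≤ A) (hb : |b| ≤ B) : |a * b| ≤ A * B := by
  rw [abs_mul]
  exact mul_le_mul ha hb (abs_nonneg b) ((abs_nonneg a).trans ha)

/-- Rounding of the variables. -/
theorem hZ_aux {u y om be m0 t t' s s' nu nu' N N' B Y O : ℝ} (hu : 0 < u)
    (c1 : nu = m0 + t * be - s * (y + t * om)) (c2 : nu' = m0 + t' * be - s' * (y + t' * om))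
    (t1 : 0 ≤ t) (t1' : t < 1) (t2 : 0 ≤ t') (t2' : t' < 1) (s1 : |s| ≤ 4) (s2 : |s'| ≤ 4)
    (n1 : |u * nu - N| ≤ 1) (n2 : |u * nu' - N'| ≤ 1) (n3 : |u * be - B| ≤ 1)
    (n4 : |u * (4 * y) - Y| ≤ 1) (n5 : |u * (4 * om) - O| ≤ 1) :
    |(N' - N) - u * ((t' - t) * (B / u) - (s' / 4 - s / 4) * (Y / u) -
      (s' / 4 * t' - s / 4 * t) * (O / u))| ≤ 8 := by
  have e1 : (N' - N) - u * ((t' - t) * (B / u) - (s' / 4 - s / 4) * (Y / u) -
      (s' / 4 * t' - s / 4 * t) * (O / u)) =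
      -(u * nu' - N') + (u * nu - N) + (t' - t) * (u * be - B) -
        ((s' - s) / 4) * (u * (4 * y) - Y) -
        ((s' * t' - s * t) / 4) * (u * (4 * om) - O) := by
    rw [c1, c2]
    field_simp
    ring
  rw [e1]
  have a1 : |t' - t| ≤ 1 := by
    rw [abs_le]
    constructor <;> linarith
  have a2 : |(s' - s) / 4| ≤ 2 := by
    rw [abs_div, abs_of_pos (by norm_num : (0 : ℝ) < 4), div_le_iff₀ (by norm_num)]
    have := abs_sub s' s
    linarith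
  have a3 : |(s' * t' - s * t) / 4| ≤ 2 := by
    rw [abs_div, abs_of_pos (by norm_num : (0 : ℝ) < 4), div_le_iff₀ (by norm_num)]
    have b1 := abs_sub (s' * t') (s * t)
    have b2 : |s' * t'| ≤ 4 * 1 := abs_mul_le s2 (by rw [abs_of_nonneg t2]; exact t2'.le)
    have b3 : |s * t| ≤ 4 * 1 := abs_mul_le s1 (by rw [abs_of_nonneg t1]; exact t1'.le)
    linarith
  have b1 := abs_mul_le a1 n3
  have b2 := abs_mul_le a2 n4
  have b3 := abs_mul_le a3 n5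
  rw [abs_le] at n1 n2 b1 b2 b3 ⊢
  constructor <;> linarith

open Classical in
/-- The data with integer variables. -/
noncomputable def mkD (q : Ω → ℝ) (L : Ω → Λ) (T : Ω → Θ) (fy fom fbe : Λ → ℝ) (fth fS : Θ → ℝ)
    (nu : Ω → ℝ) (X : ℕ) : Dat where
  Om := Ω
  Lam := Λ
  Tau := Θ
  P := q
  L := L
  T := T
  y := fun l => ⌊(2 : ℝ) ^ X * (4 * fy l)⌋
  om := fun l => ⌊(2 : ℝ) ^ X * (4 * fom l)⌋
  be := fun l => ⌊(2 : ℝ) ^ X * fbe l⌋
  N := dg X nu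
  th := fun t => if 0 ≤ fth t ∧ fth t < 1 then fth t else 0
  S := fun t => if |fS t| ≤ 4 then fS t / 4 else 0
  X := X

theorem oc_one {x₀ κ ϖ ι ε c ca : ℝ} {X₀ : ℕ}
    (hOC : ∀ d : Dat, d.OK 2 → X₀ ≤ d.X → d.H1 ι → d.H2 ι → d.H3 ι → d.H4 ca →
      d.H5 c κ ϖ → d.H6 x₀ ε → False)
    {q : Ω → ℝ} {L : Ω → Λ} {T : Ω → Θ} {y om be m0 th S nu : Ω → ℝ}
    (hd : OCData q (fun _ => ()) L T y om be m0 th S nu) {X : ℕ} (hX : X₀ ≤ X)
    (hXι : 8 * Real.log 2 ≤ ι * X) (hXι' : 4 ≤ ι * X)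
    (h1 : Pool.KVA.MI q T L (fun _ => ()) ≤ ι * X)
    (h1' : (1 - ι) * X * Real.log 2 ≤ CH q (dg X th) L)
    (h2 : CH q (dg X nu) T - CH q (dg X nu) (fun ω => ((dg X y ω, (dg X om ω, dg X be ω)), T ω)) ≤
      ι / 2 * X)
    (h3 : (1 - ι / 2) * X * Real.log 2 ≤ CH q (dg X y) (dg X om))
    (h4 : ca * X * Real.log 2 ≤ H q (dg X om))
    (h6 : Pool.KAF.Pr (dbl q L) {w | |S w.1 - S w.2| < 4 * (2 : ℝ) ^ (-(x₀ * X))} ≤ ε) :
    ∃ j : ℕ, (j + 1) * ⌊κ * X⌋₊ ≤ X ∧ ∃ E : Ω → Prop, ϖ ≤ Pe q E ∧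
      (1 - c) * ⌊κ * X⌋₊ * Real.log 2 <
        CH (Pool.Agent.H49.Ent.cond q E True) (dg ((j + 1) * ⌊κ * X⌋₊) nu)
          (fun ω => (dg (j * ⌊κ * X⌋₊) nu ω, T ω)) := by
  classical
  by_contra hcon
  push Not at hcon
  have hq := hd.law
  have h0 := hq.nonneg
  have det : ∀ {x : Ω → ℝ}, Det q (fun ω => ((), L ω)) x → Det q L x := fun h ω ω' a b e =>
    h ω ω' a b (Prod.ext rfl e)
  have detT : ∀ {x : Ω → ℝ}, Det q (fun ω => ((), T ω)) x → Det q T x := fun h ω ω' a b e =>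
    h ω ω' a b (Prod.ext rfl e)
  obtain ⟨fy, hfy⟩ := exists_fun (det hd.dy)
  obtain ⟨fom, hfom⟩ := exists_fun (det hd.dom)
  obtain ⟨fbe, hfbe⟩ := exists_fun (det hd.dbe)
  obtain ⟨fm, hfm⟩ := exists_fun (det hd.dm0)
  obtain ⟨fth, hfth⟩ := exists_fun (detT hd.dth)
  obtain ⟨fS, hfS⟩ := exists_fun (detT hd.dS)
  have h2X : (0 : ℝ) < 2 ^ X := by positivity
  have bnd : ∀ x : ℝ, |x - ⌊x⌋| ≤ 1 := fun x => by
    rw [abs_le]
    have := Int.floor_le x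
    have := Int.lt_floor_add_one x
    constructor <;> linarith
  -- the values on the support
  have eth : ∀ ω, 0 < q ω → (mkD q L T fy fom fbe fth fS nu X).th (T ω) = th ω := by
    intro ω hω
    show (if 0 ≤ fth (T ω) ∧ fth (T ω) < 1 then fth (T ω) else 0) = th ω
    rw [← hfth ω hω, if_pos (hd.hth ω hω)]
  have eS : ∀ ω, 0 < q ω → (mkD q L T fy fom fbe fth fS nu X).S (T ω) = S ω / 4 := by
    intro ω hω
    show (if |fS (T ω)| ≤ 4 then fS (T ω) / 4 else 0) = S ω / 4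
    rw [← hfS ω hω, if_pos (hd.hS ω hω)]
  have ey : ∀ ω, 0 < q ω → (mkD q L T fy fom fbe fth fS nu X).yR (L ω) =
      ⌊(2 : ℝ) ^ X * (4 * y ω)⌋ / 2 ^ X := by
    intro ω hω
    show (⌊(2 : ℝ) ^ X * (4 * fy (L ω))⌋ : ℝ) / 2 ^ X = _
    rw [← hfy ω hω]
  have eom : ∀ ω, 0 < q ω → (mkD q L T fy fom fbe fth fS nu X).omR (L ω) =
      ⌊(2 : ℝ) ^ X * (4 * om ω)⌋ / 2 ^ X := by
    intro ω hω
    show (⌊(2 : ℝ) ^ X * (4 * fom (L ω))⌋ : ℝ) / 2 ^ X = _
    rw [← hfom ω hω]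
  have ebe : ∀ ω, 0 < q ω → (mkD q L T fy fom fbe fth fS nu X).beR (L ω) =
      ⌊(2 : ℝ) ^ X * be ω⌋ / 2 ^ X := by
    intro ω hω
    show (⌊(2 : ℝ) ^ X * fbe (L ω)⌋ : ℝ) / 2 ^ X = _
    rw [← hfbe ω hω]
  have sz : ∀ x : ℝ, 0 ≤ x → x < 4 → |(⌊(2 : ℝ) ^ X * x⌋ : ℝ) / 2 ^ X| ≤ 2 ^ 2 := by
    intro x hx hx'
    have a1 : (0 : ℝ) ≤ ⌊(2 : ℝ) ^ X * x⌋ := by
      exact_mod_cast Int.floor_nonneg.2 (by positivity)
    rw [abs_of_nonneg (div_nonneg a1 h2X.le), div_le_iff₀ h2X]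
    have a2 := Int.floor_le ((2 : ℝ) ^ X * x)
    have a3 : (2 : ℝ) ^ X * x ≤ 2 ^ X * 4 := mul_le_mul_of_nonneg_left hx'.le h2X.le
    linarith
  have hok : (mkD q L T fy fom fbe fth fS nu X).OK 2 := by
    refine ⟨hq, ?_, ?_, ?_, ?_, ?_, ?_, ?_⟩
    · intro ω hω
      rw [show (mkD q L T fy fom fbe fth fS nu X).L ω = L ω from rfl, ey ω hω]
      obtain ⟨a1, a2⟩ := hd.hy ω hω
      exact sz _ (by linarith) (by linarith)
    · intro ω hω
      rw [show (mkD q L T fy fom fbe fth fS nu X).L ω = L ω from rfl, eom ω hω]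
      obtain ⟨a1, a2⟩ := hd.hom ω hω
      exact sz _ (by linarith) (by linarith)
    · intro ω hω
      rw [show (mkD q L T fy fom fbe fth fS nu X).L ω = L ω from rfl, ebe ω hω]
      obtain ⟨a1, a2⟩ := hd.hbe ω hω
      exact sz _ a1 (by linarith)
    · intro ω ω' a b e
      have e1 : L ω = L ω' := (Prod.ext_iff.mp e).1
      have e2 : T ω = T ω' := (Prod.ext_iff.mp e).2
      show ⌊(2 : ℝ) ^ X * nu ω⌋ = ⌊(2 : ℝ) ^ X * nu ω'⌋
      rw [hd.hnu ω a, hd.hnu ω' b, hfy ω a, hfy ω' b, hfom ω a, hfom ω' b, hfbe ω a, hfbe ω' b,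
        hfm ω a, hfm ω' b, hfth ω a, hfth ω' b, hfS ω a, hfS ω' b, e1, e2]
    · intro t
      show 0 ≤ (if 0 ≤ fth t ∧ fth t < 1 then fth t else 0) ∧
        (if 0 ≤ fth t ∧ fth t < 1 then fth t else 0) < 1
      by_cases h : 0 ≤ fth t ∧ fth t < 1
      · rw [if_pos h]
        exact h
      · rw [if_neg h]
        exact ⟨le_rfl, one_pos⟩
    · intro t
      show |(if |fS t| ≤ 4 then fS t / 4 else 0)| ≤ 1
      by_cases h : |fS t| ≤ 4
      · rw [if_pos h, abs_div, abs_of_pos (by norm_num : (0 : ℝ) < 4),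
          div_le_one (by norm_num)]
        exact h
      · rw [if_neg h, abs_zero]
        exact zero_le_one
    · intro ω ω' a b e
      have e1 : L ω = L ω' := e
      show |((⌊(2 : ℝ) ^ X * nu ω'⌋ : ℝ) - ⌊(2 : ℝ) ^ X * nu ω⌋) - 2 ^ X *
        (((mkD q L T fy fom fbe fth fS nu X).th (T ω') -
          (mkD q L T fy fom fbe fth fS nu X).th (T ω)) *
          (mkD q L T fy fom fbe fth fS nu X).beR (L ω) -
        ((mkD q L T fy fom fbe fth fS nu X).S (T ω') -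
          (mkD q L T fy fom fbe fth fS nu X).S (T ω)) *
          (mkD q L T fy fom fbe fth fS nu X).yR (L ω) -
        ((mkD q L T fy fom fbe fth fS nu X).S (T ω') *
          (mkD q L T fy fom fbe fth fS nu X).th (T ω') -
          (mkD q L T fy fom fbe fth fS nu X).S (T ω) *
          (mkD q L T fy fom fbe fth fS nu X).th (T ω)) *
          (mkD q L T fy fom fbe fth fS nu X).omR (L ω))| ≤ 8
      rw [eth ω a, eth ω' b, eS ω a, eS ω' b, ey ω a, eom ω a, ebe ω a]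
      have c1 := hd.hnu ω a
      have c2 := hd.hnu ω' b
      have d1 : y ω' = y ω := by rw [hfy ω a, hfy ω' b, e1]
      have d2 : om ω' = om ω := by rw [hfom ω a, hfom ω' b, e1]
      have d3 : be ω' = be ω := by rw [hfbe ω a, hfbe ω' b, e1]
      have d4 : m0 ω' = m0 ω := by rw [hfm ω a, hfm ω' b, e1]
      rw [d1, d2, d3, d4] at c2
      obtain ⟨t1, t1'⟩ := hd.hth ω a
      obtain ⟨t2, t2'⟩ := hd.hth ω' b
      have s1 := hd.hS ω a
      have s2 := hd.hS ω' b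
      have n1 := bnd ((2 : ℝ) ^ X * nu ω)
      have n2 := bnd ((2 : ℝ) ^ X * nu ω')
      have n3 := bnd ((2 : ℝ) ^ X * be ω)
      have n4 := bnd ((2 : ℝ) ^ X * (4 * y ω))
      have n5 := bnd ((2 : ℝ) ^ X * (4 * om ω))
      exact hZ_aux h2X c1 c2 t1 t1' t2 t2' s1 s2 n1 n2 n3 n4 n5
  have gy : ∀ ω, 0 < q ω → (mkD q L T fy fom fbe fth fS nu X).y (L ω) = dg X (fun v => 4 * y v) ω :=
    fun ω hω => by
      show ⌊(2 : ℝ) ^ X * (4 * fy (L ω))⌋ = ⌊(2 : ℝ) ^ X * (4 * y ω)⌋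
      rw [← hfy ω hω]
  have gom : ∀ ω, 0 < q ω → (mkD q L T fy fom fbe fth fS nu X).om (L ω) =
      dg X (fun v => 4 * om v) ω :=
    fun ω hω => by
      show ⌊(2 : ℝ) ^ X * (4 * fom (L ω))⌋ = ⌊(2 : ℝ) ^ X * (4 * om ω)⌋
      rw [← hfom ω hω]
  have gbe : ∀ ω, 0 < q ω → (mkD q L T fy fom fbe fth fS nu X).be (L ω) = dg X be ω :=
    fun ω hω => by
      show ⌊(2 : ℝ) ^ X * fbe (L ω)⌋ = ⌊(2 : ℝ) ^ X * be ω⌋
      rw [← hfbe ω hω]
  have four : ∀ (x : Ω → ℝ) (ω : Ω), dg X (fun v => 4 * x v) ω / 4 = dg X x ω := by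
    intro x ω
    show ⌊(2 : ℝ) ^ X * (4 * x ω)⌋ / 4 = ⌊(2 : ℝ) ^ X * x ω⌋
    have e : (2 : ℝ) ^ X * (4 * x ω) = 4 * (2 ^ X * x ω) := by ring
    rw [e]
    exact floor_four_div _
  have four' : ∀ (x : Ω → ℝ) (ω : Ω), dg X (fun v => 4 * x v) ω ∈
      Finset.Ico (4 * dg X x ω) (4 * dg X x ω + 4) := by
    intro x ω
    rw [Finset.mem_Ico]
    have h := floor_four ((2 : ℝ) ^ X * x ω)
    have e : (4 : ℝ) * (2 ^ X * x ω) = 2 ^ X * (4 * x ω) := by ring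
    rw [e] at h
    exact h
  have card4 : ∀ x : ℤ, (Finset.Ico (4 * x) (4 * x + 4)).card = 4 := by
    intro x
    rw [Int.card_Ico]
    have : 4 * x + 4 - 4 * x = 4 := by ring
    rw [this]
    rfl
  refine hOC _ hok hX ⟨h1, ?_⟩ ?_ ?_ ?_ ?_ ?_
  · -- H1
    refine h1'.trans (le_of_eq ?_)
    refine CH_eq_of h0 (fun ω hω => ?_) fun _ _ => rfl
    show ⌊(2 : ℝ) ^ X * th ω⌋ = ⌊(2 : ℝ) ^ X * (mkD q L T fy fom fbe fth fS nu X).th (T ω)⌋
    rw [eth ω hω]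
  · -- H2
    show Pool.KVA.MI q (dg X nu) (fun ω => ((mkD q L T fy fom fbe fth fS nu X).y (L ω),
      (mkD q L T fy fom fbe fth fS nu X).om (L ω), (mkD q L T fy fom fbe fth fS nu X).be (L ω)))
      T ≤ ι * X
    have k1 := CH_chain h0 (dg X nu) (fun ω => ((mkD q L T fy fom fbe fth fS nu X).y (L ω),
      (mkD q L T fy fom fbe fth fS nu X).om (L ω), (mkD q L T fy fom fbe fth fS nu X).be (L ω))) T
    have k2 : CH q (dg X nu) (fun ω => (((mkD q L T fy fom fbe fth fS nu X).y (L ω),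
        (mkD q L T fy fom fbe fth fS nu X).om (L ω),
        (mkD q L T fy fom fbe fth fS nu X).be (L ω)), T ω)) =
        CH q (dg X nu) (fun ω => ((dg X (fun v => 4 * y v) ω, (dg X (fun v => 4 * om v) ω,
          dg X be ω)), T ω)) := by
      refine CH_eq_of h0 (fun _ _ => rfl) fun ω hω => ?_
      rw [gy ω hω, gom ω hω, gbe ω hω]
    have k3 := CH_le_add h0 (dg X nu) (fun ω => (dg X (fun v => 4 * y v) ω,
      (dg X (fun v => 4 * om v) ω, dg X be ω)))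
      (fun ω => ((dg X y ω, (dg X om ω, dg X be ω)), T ω))
    have k4 : CH q (dg X nu) (fun ω => ((dg X (fun v => 4 * y v) ω,
        (dg X (fun v => 4 * om v) ω, dg X be ω)),
        ((dg X y ω, (dg X om ω, dg X be ω)), T ω))) ≤
        CH q (dg X nu) (fun ω => ((dg X (fun v => 4 * y v) ω, (dg X (fun v => 4 * om v) ω,
          dg X be ω)), T ω)) :=
      CH_mono_cond h0 fun ω ω' _ _ e => Prod.ext (Prod.ext_iff.mp e).1
        (Prod.ext_iff.mp (Prod.ext_iff.mp e).2).2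
    have k5 : CH q (fun ω => (dg X (fun v => 4 * y v) ω,
        (dg X (fun v => 4 * om v) ω, dg X be ω)))
        (fun ω => ((dg X y ω, (dg X om ω, dg X be ω)), T ω)) ≤ 4 * Real.log 2 := by
      refine (CH_le_card h0 hq.sum_one _ _ (fun v => (Finset.Ico (4 * v.1.1) (4 * v.1.1 + 4)) ×ˢ
        ((Finset.Ico (4 * v.1.2.1) (4 * v.1.2.1 + 4)) ×ˢ ({v.1.2.2} : Finset ℤ))) ?_).trans ?_
      · intro ω _
        rw [Finset.mem_product, Finset.mem_product, Finset.mem_singleton]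
        exact ⟨four' y ω, four' om ω, rfl⟩
      · refine le_of_eq ?_
        simp only [Finset.card_product, card4, Finset.card_singleton]
        rw [Ex_const hq.sum_one]
        have : (((4 * (4 * 1) : ℕ)) : ℝ) = 2 ^ 4 := by norm_num
        rw [this, Real.log_pow]
        push_cast
        ring
    unfold Pool.KVA.MI
    rw [k1, k2]
    linarith
  · -- H3
    show (1 - ι) * X * Real.log 2 ≤ CH q (fun ω => (mkD q L T fy fom fbe fth fS nu X).y (L ω))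
      (fun ω => (mkD q L T fy fom fbe fth fS nu X).om (L ω))
    rw [CH_eq_of h0 gy gom]
    have k1 : CH q (dg X y) (dg X (fun v => 4 * om v)) ≤
        CH q (dg X (fun v => 4 * y v)) (dg X (fun v => 4 * om v)) :=
      CH_mono_left h0 fun ω ω' _ _ e => by
        have e' : dg X (fun v => 4 * y v) ω = dg X (fun v => 4 * y v) ω' := (Prod.ext_iff.mp e).1
        rw [← four y ω, ← four y ω', e']
    have k2 := CH_le_add h0 (dg X y) (dg X (fun v => 4 * om v)) (dg X om)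
    have k3 : CH q (dg X y) (fun ω => (dg X (fun v => 4 * om v) ω, dg X om ω)) ≤
        CH q (dg X y) (dg X (fun v => 4 * om v)) :=
      CH_mono_cond h0 fun ω ω' _ _ e => (Prod.ext_iff.mp e).1
    have k4 : CH q (dg X (fun v => 4 * om v)) (dg X om) ≤ 2 * Real.log 2 := by
      refine (CH_le_card h0 hq.sum_one _ _ (fun v => Finset.Ico (4 * v) (4 * v + 4)) ?_).trans ?_
      · intro ω _
        exact four' om ω
      · refine le_of_eq ?_
        simp only [card4]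
        rw [Ex_const hq.sum_one]
        have : ((4 : ℕ) : ℝ) = 2 ^ 2 := by norm_num
        rw [this, Real.log_pow]
        push_cast
        ring
    have k5 : 0 < Real.log 2 := Real.log_pos (by norm_num)
    have k6 : 4 * Real.log 2 ≤ ι * X * Real.log 2 := mul_le_mul_of_nonneg_right hXι' k5.le
    linarith
  · -- H4
    show ca * X * Real.log 2 ≤ H q (fun ω => (mkD q L T fy fom fbe fth fS nu X).om (L ω))
    refine h4.trans (H_mono h0 fun ω ω' a b e => ?_)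
    have e' : dg X (fun v => 4 * om v) ω = dg X (fun v => 4 * om v) ω' := by
      rw [← gom ω a, ← gom ω' b]
      exact e
    rw [← four om ω, ← four om ω', e']
  · -- H5
    intro j hj E hE
    have k1 := hcon j hj (fun ω => ω ∈ E) hE
    refine le_trans (le_of_eq ?_) k1
    have hj' : j * ⌊κ * X⌋₊ ≤ X := le_trans (Nat.mul_le_mul_right _ (Nat.le_succ j)) hj
    have r1 : (mkD q L T fy fom fbe fth fS nu X).row ((j + 1) * ⌊κ * X⌋₊) =
        dg ((j + 1) * ⌊κ * X⌋₊) nu := by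
      funext ω
      exact floor_row hj (nu ω)
    have r2 : (mkD q L T fy fom fbe fth fS nu X).row (j * ⌊κ * X⌋₊) = dg (j * ⌊κ * X⌋₊) nu := by
      funext ω
      exact floor_row hj' (nu ω)
    show CH (Pool.Agent.H49.Ent.cond q (fun ω => ω ∈ E) True)
      ((mkD q L T fy fom fbe fth fS nu X).row ((j + 1) * ⌊κ * X⌋₊))
      (fun ω => ((mkD q L T fy fom fbe fth fS nu X).row (j * ⌊κ * X⌋₊) ω, T ω)) = _
    rw [r1, r2]
  · -- H6
    refine le_trans ?_ h6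
    refine Pr_le_of (fun w => glue_nonneg h0 h0 w) fun w hw hE => ?_
    obtain ⟨a, b, -⟩ := (glue_pos_iff h0 h0 w).1 hw
    have hE' : |(mkD q L T fy fom fbe fth fS nu X).S (T w.1) -
      (mkD q L T fy fom fbe fth fS nu X).S (T w.2)| < (2 : ℝ) ^ (-(x₀ * X)) := hE
    rw [eS _ a, eS _ b, ← sub_div, abs_div, abs_of_pos (by norm_num : (0 : ℝ) < 4),
      div_lt_iff₀ (by norm_num)] at hE'
    show |S w.1 - S w.2| < 4 * (2 : ℝ) ^ (-(x₀ * X))
    linarith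

end Uni

end Pool.K2S
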