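import Pool.Agent.H50.K2.Piece

/-!
# The union of the events of the contexts

If at many values of a context there is an event of positive probability on which some row has
large entropy, then there is one row and one event of positive probability, for all contexts
together, on which this row has large entropy given the context.
-/

set_option autoImplicit false

namespace Pool.K2S

open Finset Real
open Pool.Agent.H49.Ent Pool.Agent.H32.Dense Pool.STK Pool.KA

variable {Ω S T β : Type} [Fintype Ω]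

namespace Uni

/-- The probability of an event as an average over the values of a label. -/
theorem Pe_sum [DecidableEq β] {p : Ω → ℝ} (hp : ∀ ω, 0 ≤ p ω) (b : Ω → β) (E : Ω → Prop) :
    Pe p E = ∑ z ∈ univ.image b,
      law p b z * Pe (Pool.Agent.H49.Ent.cond p b z) E := by
  classical
  rw [Pe_eq]
  have h1 : ∀ ω, (if E ω then p ω else 0) = ∑ z ∈ univ.image b,
      law p b z * (if E ω then Pool.Agent.H49.Ent.cond p b z ω else 0) := by
    intro ω
    rw [Finset.sum_eq_single (b ω)]
    · by_cases hω : p ω = 0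
      · unfold Pool.Agent.H49.Ent.cond
        rw [hω]
        simp
      · have hpos : 0 < p ω := lt_of_le_of_ne (hp ω) (Ne.symm hω)
        have hl := (law_pos hp b hpos).ne'
        unfold Pool.Agent.H49.Ent.cond
        rw [if_pos rfl]
        by_cases hE : E ω
        · rw [if_pos hE, if_pos hE, mul_div_cancel₀ _ hl]
        · rw [if_neg hE, if_neg hE, mul_zero]
    · intro z _ hz
      unfold Pool.Agent.H49.Ent.cond
      rw [if_neg (fun h : b ω = z => hz h.symm)]
      simp
    · intro h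
      exact absurd (Finset.mem_image_of_mem b (Finset.mem_univ ω)) h
  rw [Finset.sum_congr rfl fun ω _ => h1 ω, Finset.sum_comm]
  refine Finset.sum_congr rfl fun z _ => ?_
  rw [Pe_eq, Finset.mul_sum]

theorem isLaw_cond' {p : Ω → ℝ} (hp : ∀ ω, 0 ≤ p ω) (b : Ω → β) {z : β} (hz : 0 < law p b z) :
    IsLaw (Pool.Agent.H49.Ent.cond p b z) :=
  ⟨fun v => cond_nonneg hp b z v, sum_cond p b hz.ne'⟩

/-- Conditioning on an event given by the label, at one value of the label. -/
theorem cond_union {p : Ω → ℝ} (hp : ∀ ω, 0 ≤ p ω) (b : Ω → β) (E : β → Ω → Prop)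
    {z : β} (hz : 0 < law p b z) (hE : 0 < Pe (Pool.Agent.H49.Ent.cond p b z) (E z))
    (hA : 0 < Pe p (fun ω => E (b ω) ω)) :
    law (Pool.Agent.H49.Ent.cond p (fun ω => E (b ω) ω) True) b z =
        law p b z * Pe (Pool.Agent.H49.Ent.cond p b z) (E z) / Pe p (fun ω => E (b ω) ω) ∧
      Pool.Agent.H49.Ent.cond (Pool.Agent.H49.Ent.cond p (fun ω => E (b ω) ω) True) b z =
        Pool.Agent.H49.Ent.cond (Pool.Agent.H49.Ent.cond p b z) (E z) True := by
  classical
  have hA' : law p (fun ω => E (b ω) ω) True = Pe p (fun ω => E (b ω) ω) := rfl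
  have hE' : law (Pool.Agent.H49.Ent.cond p b z) (E z) True =
      Pe (Pool.Agent.H49.Ent.cond p b z) (E z) := rfl
  have e1 : law (Pool.Agent.H49.Ent.cond p (fun ω => E (b ω) ω) True) b z =
      law p b z * Pe (Pool.Agent.H49.Ent.cond p b z) (E z) / Pe p (fun ω => E (b ω) ω) := by
    rw [Pe_eq (Pool.Agent.H49.Ent.cond p b z), Finset.mul_sum, Finset.sum_div]
    show ∑ ω, _ = _
    refine Finset.sum_congr rfl fun ω _ => ?_
    unfold Pool.Agent.H49.Ent.cond
    rw [hA']
    by_cases h1 : b ω = z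
    · rw [if_pos h1, if_pos h1]
      by_cases h2 : E z ω
      · have h3 : E (b ω) ω = True := eq_true (by rw [h1]; exact h2)
        rw [if_pos h3, if_pos h2, mul_div_cancel₀ _ hz.ne']
      · have h3 : ¬ (E (b ω) ω = True) := fun h => h2 (by rw [← h1]; exact of_eq_true h)
        rw [if_neg h3, if_neg h2]
        simp
    · rw [if_neg h1, if_neg h1]
      simp
  refine ⟨e1, ?_⟩
  funext ω
  unfold Pool.Agent.H49.Ent.cond at e1 hE' ⊢
  by_cases h1 : b ω = z
  · rw [if_pos h1, if_pos h1, e1, hE']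
    by_cases h2 : E z ω
    · have h3 : E (b ω) ω = True := eq_true (by rw [h1]; exact h2)
      rw [if_pos h3, if_pos (eq_true h2), hA', div_div, div_div]
      congr 1
      rw [mul_div_cancel₀ _ hA.ne']
    · have h3 : ¬ (E (b ω) ω = True) := fun h => h2 (by rw [← h1]; exact of_eq_true h)
      rw [if_neg h3, if_neg (fun h => h2 (of_eq_true h))]
      simp
  · rw [if_neg h1, if_neg h1]
    simp

/-- **The union of the events of the contexts.** -/
theorem union_event {n : ℕ} {p : Ω → ℝ} (hp : IsLaw p) (b : Ω → β) (G : β → Prop)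
    {ϖ γ : ℝ} (hϖ : 0 < ϖ) (hγ : 0 < γ) (h : ℝ) (X : Fin n → Ω → S) (Y : Fin n → Ω → T)
    (hG : γ ≤ Pe p (fun ω => G (b ω)))
    (hex : ∀ z, G z → 0 < law p b z → ∃ (r : Fin n) (E : Ω → Prop),
      ϖ ≤ Pe (Pool.Agent.H49.Ent.cond p b z) E ∧
      h < CH (Pool.Agent.H49.Ent.cond (Pool.Agent.H49.Ent.cond p b z) E True) (X r) (Y r)) :
    ∃ (r : Fin n) (A : Ω → Prop), ϖ * γ / n ≤ Pe p A ∧
      h < CH (Pool.Agent.H49.Ent.cond p A True) (X r) (fun ω => (Y r ω, b ω)) := by
  classical
  -- the choice of the rows and of the events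
  have hex' : ∀ z, ∃ rE : Fin n × (Ω → Prop), G z → 0 < law p b z →
      ϖ ≤ Pe (Pool.Agent.H49.Ent.cond p b z) rE.2 ∧
      h < CH (Pool.Agent.H49.Ent.cond (Pool.Agent.H49.Ent.cond p b z) rE.2 True)
        (X rE.1) (Y rE.1) := by
    intro z
    by_cases h1 : G z ∧ 0 < law p b z
    · obtain ⟨r, E, h2⟩ := hex z h1.1 h1.2
      exact ⟨(r, E), fun _ _ => h2⟩
    · have hn : 0 < n := by
        by_contra hn
        have hn0 : n = 0 := by omega
        have hG' : 0 < Pe p (fun ω => G (b ω)) := lt_of_lt_of_le hγ hG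
        rw [Pe_eq] at hG'
        obtain ⟨ω, -, hω⟩ := Finset.exists_lt_of_sum_lt
          (s := univ) (f := fun _ : Ω => (0 : ℝ)) (g := fun ω => if G (b ω) then p ω else 0)
          (by simpa using hG')
        by_cases h2 : G (b ω)
        · rw [if_pos h2] at hω
          obtain ⟨r, -⟩ := hex (b ω) h2 (law_pos hp.nonneg b hω)
          exact absurd r.2 (by omega)
        · rw [if_neg h2] at hω
          exact lt_irrefl _ hω
      exact ⟨(⟨0, hn⟩, fun _ => True), fun h2 h3 => absurd ⟨h2, h3⟩ h1⟩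
  choose rE hrE using hex'
  -- the most popular row
  have hsplit : Pe p (fun ω => G (b ω)) ≤ ∑ r : Fin n, Pe p (fun ω => G (b ω) ∧
      (rE (b ω)).1 = r) := by
    simp_rw [Pe_eq]
    rw [Finset.sum_comm]
    refine Finset.sum_le_sum fun ω _ => ?_
    by_cases h1 : G (b ω)
    · rw [if_pos h1]
      refine le_trans (le_of_eq ?_) (Finset.single_le_sum (fun r _ => ?_)
        (Finset.mem_univ (rE (b ω)).1))
      · exact (if_pos ⟨h1, rfl⟩).symm
      · split_ifs
        · exact hp.nonneg ω
        · exact le_rfl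
    · rw [if_neg h1]
      refine Finset.sum_nonneg fun r _ => ?_
      split_ifs
      · exact hp.nonneg ω
      · exact le_rfl
  have hn : 0 < n := by
    by_contra hn
    have hn0 : n = 0 := by omega
    subst hn0
    rw [Finset.univ_eq_empty, Finset.sum_empty] at hsplit
    linarith
  have hnr : (0 : ℝ) < n := by exact_mod_cast hn
  obtain ⟨r, hr⟩ : ∃ r : Fin n, γ / n ≤ Pe p (fun ω => G (b ω) ∧ (rE (b ω)).1 = r) := by
    by_contra hcon
    push Not at hcon
    have h1 : ∑ r : Fin n, Pe p (fun ω => G (b ω) ∧ (rE (b ω)).1 = r) <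
        ∑ _r : Fin n, γ / n :=
      Finset.sum_lt_sum_of_nonempty ⟨⟨0, hn⟩, Finset.mem_univ _⟩ fun r _ => hcon r
    rw [Finset.sum_const, Finset.card_univ, Fintype.card_fin, nsmul_eq_mul,
      mul_div_cancel₀ _ hnr.ne'] at h1
    linarith
  -- the event
  obtain ⟨E, hE⟩ : ∃ E : β → Ω → Prop, E = fun z ω => (G z ∧ 0 < law p b z ∧ (rE z).1 = r) ∧
    (rE z).2 ω := ⟨_, rfl⟩
  obtain ⟨A, hA⟩ : ∃ A : Ω → Prop, A = fun ω => E (b ω) ω := ⟨_, rfl⟩
  have hEz : ∀ z, G z → 0 < law p b z → (rE z).1 = r → E z = (rE z).2 := by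
    intro z h1 h2 h3
    funext ω
    rw [hE]
    exact propext ⟨fun h => h.2, fun h => ⟨⟨h1, h2, h3⟩, h⟩⟩
  have hEz' : ∀ z, ¬ (G z ∧ 0 < law p b z ∧ (rE z).1 = r) →
      Pe (Pool.Agent.H49.Ent.cond p b z) (E z) = 0 := by
    intro z h1
    rw [Pe_eq]
    refine Finset.sum_eq_zero fun ω _ => ?_
    rw [if_neg]
    intro h2
    rw [hE] at h2
    exact h1 h2.1
  have hPe : ∀ z, Pe (Pool.Agent.H49.Ent.cond p b z) A =
      Pe (Pool.Agent.H49.Ent.cond p b z) (E z) := by
    intro z
    rw [Pe_eq, Pe_eq]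
    refine Finset.sum_congr rfl fun ω _ => ?_
    by_cases h1 : b ω = z
    · rw [hA]
      simp only [h1]
    · have h2 : Pool.Agent.H49.Ent.cond p b z ω = 0 := by
        unfold Pool.Agent.H49.Ent.cond
        rw [if_neg h1]
      rw [h2]
      simp
  have hAp : ϖ * γ / n ≤ Pe p A := by
    have e1 := Pe_sum hp.nonneg b A
    have e2 := Pe_sum hp.nonneg b (fun ω => G (b ω) ∧ (rE (b ω)).1 = r)
    have h1 : ϖ * Pe p (fun ω => G (b ω) ∧ (rE (b ω)).1 = r) ≤ Pe p A := by
      rw [e1, e2, Finset.mul_sum]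
      refine Finset.sum_le_sum fun z _ => ?_
      rw [hPe z]
      by_cases hz : 0 < law p b z
      · by_cases h1 : G z ∧ (rE z).1 = r
        · have h2 := (hrE z h1.1 hz).1
          have h3 : Pe (Pool.Agent.H49.Ent.cond p b z)
              (fun ω => G (b ω) ∧ (rE (b ω)).1 = r) ≤ 1 := by
            have h4 := Pe_mono (isLaw_cond' hp.nonneg b hz) (A := fun _ => True)
              (B := fun ω => G (b ω) ∧ (rE (b ω)).1 = r) (fun _ _ => trivial)
            exact h4.trans (le_of_eq (Pe_univ (isLaw_cond' hp.nonneg b hz)))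
          rw [hEz z h1.1 hz h1.2]
          have h6 := hz.le
          have h7 : law p b z * Pe (Pool.Agent.H49.Ent.cond p b z)
              (fun ω => G (b ω) ∧ (rE (b ω)).1 = r) ≤ law p b z * 1 :=
            mul_le_mul_of_nonneg_left h3 h6
          calc ϖ * (law p b z * Pe (Pool.Agent.H49.Ent.cond p b z)
              (fun ω => G (b ω) ∧ (rE (b ω)).1 = r)) ≤ ϖ * (law p b z * 1) :=
                mul_le_mul_of_nonneg_left h7 hϖ.le
            _ = law p b z * ϖ := by ring
            _ ≤ _ := mul_le_mul_of_nonneg_left h2 h6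
        · have h2 : Pe (Pool.Agent.H49.Ent.cond p b z)
              (fun ω => G (b ω) ∧ (rE (b ω)).1 = r) = 0 := by
            rw [Pe_eq]
            refine Finset.sum_eq_zero fun ω _ => ?_
            by_cases h3 : b ω = z
            · rw [if_neg]
              intro h4
              rw [h3] at h4
              exact h1 h4
            · have h4 : Pool.Agent.H49.Ent.cond p b z ω = 0 := by
                unfold Pool.Agent.H49.Ent.cond
                rw [if_neg h3]
              rw [h4]
              simp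
          rw [h2, mul_zero, mul_zero]
          exact mul_nonneg hz.le (Pe_nonneg (isLaw_cond' hp.nonneg b hz) _)
      · have h1 : law p b z = 0 := le_antisymm (not_lt.mp hz) (law_nonneg hp.nonneg b z)
        rw [h1]
        simp
    refine le_trans (le_of_eq ?_) ((mul_le_mul_of_nonneg_left hr hϖ.le).trans h1)
    ring
  have hA0 : 0 < Pe p A := lt_of_lt_of_le (by positivity) hAp
  refine ⟨r, A, hAp, ?_⟩
  -- the entropy
  have hqA : IsLaw (Pool.Agent.H49.Ent.cond p A True) := isLaw_cond hp hA0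
  rw [Pool.KS3.MKC.CH_pair_eq_sum hqA.nonneg (X r) (Y r) b]
  have hone : ∑ z ∈ univ.image b, law (Pool.Agent.H49.Ent.cond p A True) b z = 1 := by
    rw [sum_law, hqA.sum_one]
  have hz0 : ∀ z, law (Pool.Agent.H49.Ent.cond p A True) b z ≠ 0 →
      0 < law p b z ∧ G z ∧ (rE z).1 = r := by
    intro z hz
    have h1 : 0 < law (Pool.Agent.H49.Ent.cond p A True) b z :=
      lt_of_le_of_ne (law_nonneg hqA.nonneg b z) (Ne.symm hz)
    unfold law at h1
    obtain ⟨ω, -, hω⟩ := Finset.exists_lt_of_sum_lt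
      (s := univ) (f := fun _ : Ω => (0 : ℝ))
      (g := fun ω => if b ω = z then Pool.Agent.H49.Ent.cond p A True ω else 0)
      (by simpa using h1)
    by_cases h2 : b ω = z
    · rw [if_pos h2] at hω
      have h3 := (cond_pos_iff hp.nonneg A True ω).1 hω
      have h4 : A ω := of_eq_true h3.2
      rw [hA, hE] at h4
      simp only [h2] at h4
      exact ⟨h4.1.2.1, h4.1.1, h4.1.2.2⟩
    · rw [if_neg h2] at hω
      exact absurd hω (lt_irrefl _)
  have hlt : ∀ z, law (Pool.Agent.H49.Ent.cond p A True) b z ≠ 0 →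
      h < CH (Pool.Agent.H49.Ent.cond (Pool.Agent.H49.Ent.cond p A True) b z) (X r) (Y r) := by
    intro z hz
    obtain ⟨h1, h2, h3⟩ := hz0 z hz
    obtain ⟨h4, h5⟩ := hrE z h2 h1
    have h6 := hEz z h2 h1 h3
    have h7 : 0 < Pe (Pool.Agent.H49.Ent.cond p b z) (E z) := by
      rw [h6]; exact lt_of_lt_of_le hϖ h4
    have h8 := (cond_union hp.nonneg b E h1 h7 (by rw [← hA]; exact hA0)).2
    rw [← hA, h6] at h8
    rw [h8]
    rw [h3] at h5
    exact h5
  obtain ⟨z₁, hz₁, hz₁'⟩ : ∃ z ∈ univ.image b,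
      law (Pool.Agent.H49.Ent.cond p A True) b z ≠ 0 := by
    by_contra hcon
    push Not at hcon
    rw [Finset.sum_eq_zero hcon] at hone
    exact zero_ne_one hone
  calc h = ∑ z ∈ univ.image b, law (Pool.Agent.H49.Ent.cond p A True) b z * h := by
        rw [← Finset.sum_mul, hone, one_mul]
    _ < _ := by
      refine Finset.sum_lt_sum (fun z _ => ?_) ⟨z₁, hz₁, ?_⟩
      · by_cases hz : law (Pool.Agent.H49.Ent.cond p A True) b z = 0
        · rw [hz]
          simp
        · exact mul_le_mul_of_nonneg_left (hlt z hz).le (law_nonneg hqA.nonneg b z)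
      · exact mul_lt_mul_of_pos_left (hlt z₁ hz₁')
          (lt_of_le_of_ne (law_nonneg hqA.nonneg b z₁) (Ne.symm hz₁'))

end Uni

end Pool.K2S
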